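import Pool.Agent.Helper92.LV.Stmts

/-! # Module GK: sixth differences of the sixth Bernoulli polynomial -/

namespace Pool.Agent.Helper92.LV

open Real Filter Topology NumberField Pool.Agent.Helper42.LS Pool.Agent.Helper42.LK
open Pool.Agent.Helper54.LS

/-- the sixth Bernoulli polynomial is monic -/
theorem gk_coeff : (Polynomial.map (algebraMap ℚ ℝ) (Polynomial.bernoulli (2 * 3))).coeff 6 = 1 := by
  rw [Polynomial.coeff_map, Polynomial.bernoulli, Polynomial.finsetSum_coeff]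
  have h : ∀ i ∈ Finset.range (2 * 3 + 1), i ≠ 0 →
      (Polynomial.monomial (2 * 3 - i) (_root_.bernoulli i * (Nat.choose (2 * 3) i : ℚ))).coeff 6
        = 0 := by
    intro i hi hi0
    rw [Finset.mem_range] at hi
    rw [Polynomial.coeff_monomial, if_neg (by omega)]
  rw [Finset.sum_eq_single_of_mem 0 (by simp) h]
  simp

/-- the cosine series of order six is a polynomial of degree six on `[0, 1]` -/
theorem gk_poly : ∃ c0 c1 c2 c3 c4 c5 : ℝ, ∀ x ∈ Set.Icc (0 : ℝ) 1,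
    HasSum (fun j : ℕ => 1 / (j : ℝ) ^ 6 * Real.cos (2 * π * j * x))
      (c0 + c1 * x + c2 * x ^ 2 + c3 * x ^ 3 + c4 * x ^ 4 + c5 * x ^ 5 +
        (2 * π) ^ 6 / 1440 * x ^ 6) := by
  set A : ℝ := (-1) ^ (3 + 1) * (2 * π) ^ (2 * 3) / 2 / (Nat.factorial (2 * 3) : ℝ) with hA
  set P : Polynomial ℝ := Polynomial.map (algebraMap ℚ ℝ) (Polynomial.bernoulli (2 * 3)) with hP
  refine ⟨A * P.coeff 0, A * P.coeff 1, A * P.coeff 2, A * P.coeff 3, A * P.coeff 4,
    A * P.coeff 5, ?_⟩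
  intro x hx
  have h := hasSum_one_div_nat_pow_mul_cos (k := 3) (by norm_num) hx
  have hdeg : P.natDegree < 7 := by
    refine lt_of_le_of_lt Polynomial.natDegree_map_le ?_
    have : (Polynomial.bernoulli (2 * 3)).natDegree ≤ 6 := by
      rw [Polynomial.bernoulli]
      apply Polynomial.natDegree_sum_le_of_forall_le
      intro i _
      refine (Polynomial.natDegree_monomial_le _).trans ?_
      omega
    omega
  have h6 : P.coeff 6 = 1 := gk_coeff
  have e : P.eval x = P.coeff 0 + P.coeff 1 * x + P.coeff 2 * x ^ 2 + P.coeff 3 * x ^ 3 +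
      P.coeff 4 * x ^ 4 + P.coeff 5 * x ^ 5 + x ^ 6 := by
    rw [Polynomial.eval_eq_sum_range' hdeg]
    simp [Finset.sum_range_succ, h6]
  have h2 : (fun n : ℕ => 1 / (n : ℝ) ^ (2 * 3) * Real.cos (2 * π * n * x)) =
    (fun j : ℕ => 1 / (j : ℝ) ^ 6 * Real.cos (2 * π * j * x)) := rfl
  rw [h2] at h
  have hA' : A = (2 * π) ^ 6 / 1440 := by
    rw [hA]
    norm_num [Nat.factorial]
    ring
  have e3 : A * P.coeff 0 + A * P.coeff 1 * x + A * P.coeff 2 * x ^ 2 + A * P.coeff 3 * x ^ 3 +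
      A * P.coeff 4 * x ^ 4 + A * P.coeff 5 * x ^ 5 + (2 * π) ^ 6 / 1440 * x ^ 6 =
      A * P.eval x := by
    rw [e, ← hA']
    ring
  rw [e3]
  exact h

theorem gk_term (b θ : ℝ) (j : ℕ) (x : ℝ) (hx : x = Int.fract θ) :
    wg b j * Real.cos (2 * π * (j * θ)) =
      5 / 2 * (1 / (j : ℝ) ^ 6 * Real.cos (2 * π * j * x)) -
      15 / 8 * (1 / (j : ℝ) ^ 6 * Real.cos (2 * π * j * (x + b)) +
        1 / (j : ℝ) ^ 6 * Real.cos (2 * π * j * (x - b))) +
      3 / 4 * (1 / (j : ℝ) ^ 6 * Real.cos (2 * π * j * (x + 2 * b)) +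
        1 / (j : ℝ) ^ 6 * Real.cos (2 * π * j * (x - 2 * b))) -
      1 / 8 * (1 / (j : ℝ) ^ 6 * Real.cos (2 * π * j * (x + 3 * b)) +
        1 / (j : ℝ) ^ 6 * Real.cos (2 * π * j * (x - 3 * b))) := by
  have hper : Real.cos (2 * π * (j * θ)) = Real.cos (2 * π * j * x) := by
    have h1 : θ = x + ⌊θ⌋ := by rw [hx]; exact (Int.fract_add_floor θ).symm
    have h2 : 2 * π * (j * θ) = 2 * π * j * x + ((j * ⌊θ⌋ : ℤ) : ℝ) * (2 * π) := by
      conv_lhs => rw [h1]
      push_cast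
      ring
    rw [h2, Real.cos_add_int_mul_two_pi]
  rw [hper]
  unfold wg
  set V := 2 * π * j * x with hV
  set U := 2 * π * (b * j) with hU
  have e1 : 2 * π * j * (x + b) = V + U := by rw [hV, hU]; ring
  have e2 : 2 * π * j * (x - b) = V - U := by rw [hV, hU]; ring
  have e3 : 2 * π * j * (x + 2 * b) = V + 2 * U := by rw [hV, hU]; ring
  have e4 : 2 * π * j * (x - 2 * b) = V - 2 * U := by rw [hV, hU]; ring
  have e5 : 2 * π * j * (x + 3 * b) = V + 3 * U := by rw [hV, hU]; ring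
  have e6 : 2 * π * j * (x - 3 * b) = V - 3 * U := by rw [hV, hU]; ring
  rw [e1, e2, e3, e4, e5, e6]
  have s1 : Real.cos (V + U) + Real.cos (V - U) = 2 * Real.cos V * Real.cos U := by
    rw [Real.cos_add, Real.cos_sub]; ring
  have s2 : Real.cos (V + 2 * U) + Real.cos (V - 2 * U) = 2 * Real.cos V * Real.cos (2 * U) := by
    rw [Real.cos_add, Real.cos_sub]; ring
  have s3 : Real.cos (V + 3 * U) + Real.cos (V - 3 * U) = 2 * Real.cos V * Real.cos (3 * U) := by
    rw [Real.cos_add, Real.cos_sub]; ring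
  rw [← mul_add, ← mul_add, ← mul_add, s1, s2, s3, Real.cos_two_mul, Real.cos_three_mul]
  ring

theorem st_GK : ST_GK := by
  intro b θ hb hb' hnd
  obtain ⟨c0, c1, c2, c3, c4, c5, hG⟩ := gk_poly
  unfold nd at hnd
  have hx1 : 3 * b ≤ Int.fract θ := hnd.trans (min_le_left _ _)
  have hx2 : 3 * b ≤ 1 - Int.fract θ := hnd.trans (min_le_right _ _)
  set x := Int.fract θ with hx
  have h0 := hG x ⟨by linarith, by linarith⟩
  have h1 := hG (x + b) ⟨by linarith, by linarith⟩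
  have h2 := hG (x - b) ⟨by linarith, by linarith⟩
  have h3 := hG (x + 2 * b) ⟨by linarith, by linarith⟩
  have h4 := hG (x - 2 * b) ⟨by linarith, by linarith⟩
  have h5 := hG (x + 3 * b) ⟨by linarith, by linarith⟩
  have h6 := hG (x - 3 * b) ⟨by linarith, by linarith⟩
  have key := (((h0.mul_left (5 / 2)).sub ((h1.add h2).mul_left (15 / 8))).add
    ((h3.add h4).mul_left (3 / 4))).sub ((h5.add h6).mul_left (1 / 8))
  have hfun : (fun j : ℕ => wg b j * Real.cos (2 * π * (j * θ))) = fun j : ℕ =>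
      5 / 2 * (1 / (j : ℝ) ^ 6 * Real.cos (2 * π * j * x)) -
      15 / 8 * (1 / (j : ℝ) ^ 6 * Real.cos (2 * π * j * (x + b)) +
        1 / (j : ℝ) ^ 6 * Real.cos (2 * π * j * (x - b))) +
      3 / 4 * (1 / (j : ℝ) ^ 6 * Real.cos (2 * π * j * (x + 2 * b)) +
        1 / (j : ℝ) ^ 6 * Real.cos (2 * π * j * (x - 2 * b))) -
      1 / 8 * (1 / (j : ℝ) ^ 6 * Real.cos (2 * π * j * (x + 3 * b)) +
        1 / (j : ℝ) ^ 6 * Real.cos (2 * π * j * (x - 3 * b))) := by
    funext j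
    exact gk_term b θ j x hx
  rw [hfun]
  rw [key.tsum_eq]
  ring

end Pool.Agent.Helper92.LV
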