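import Pool.Agent.Helper92.LV.Stmts

/-! # Module GS: sizes of the weights of order six -/

namespace Pool.Agent.Helper92.LV

open Real Filter Topology NumberField Pool.Agent.Helper42.LS Pool.Agent.Helper42.LK
open Pool.Agent.Helper54.LS

theorem gs_nonneg (b : ℝ) (j : ℕ) : 0 ≤ (1 - Real.cos (2 * π * (b * j))) ^ 3 := by
  have := Real.cos_le_one (2 * π * (b * j))
  have h : 0 ≤ 1 - Real.cos (2 * π * (b * j)) := by linarith
  positivity

theorem gs_cube_le (x : ℝ) : (1 - Real.cos (2 * π * x)) ^ 3 ≤ 8 := by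
  have h1 := Real.cos_le_one (2 * π * x)
  have h2 := Real.neg_one_le_cos (2 * π * x)
  have h3 : (1 - Real.cos (2 * π * x)) ^ 3 ≤ 2 ^ 3 :=
    pow_le_pow_left₀ (by linarith) (by linarith) 3
  linarith

theorem gs_cube_le6 (x : ℝ) : (1 - Real.cos (2 * π * x)) ^ 3 ≤ 8 * π ^ 6 * x ^ 6 := by
  have h1 := Real.cos_le_one (2 * π * x)
  have h3 := Real.one_sub_sq_div_two_le_cos (x := 2 * π * x)
  have h4 : (1 - Real.cos (2 * π * x)) ^ 3 ≤ ((2 * π * x) ^ 2 / 2) ^ 3 :=
    pow_le_pow_left₀ (by linarith) (by linarith) 3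
  calc _ ≤ _ := h4
    _ = _ := by ring

theorem gs_cube_le4 (x : ℝ) : (1 - Real.cos (2 * π * x)) ^ 3 ≤ 8 * π ^ 4 * x ^ 4 := by
  have h1 := Real.cos_le_one (2 * π * x)
  have h2 := Real.neg_one_le_cos (2 * π * x)
  have h3 := Real.one_sub_sq_div_two_le_cos (x := 2 * π * x)
  have h4 : (1 - Real.cos (2 * π * x)) ^ 2 ≤ ((2 * π * x) ^ 2 / 2) ^ 2 :=
    pow_le_pow_left₀ (by linarith) (by linarith) 2
  calc (1 - Real.cos (2 * π * x)) ^ 3 =
        (1 - Real.cos (2 * π * x)) ^ 2 * (1 - Real.cos (2 * π * x)) := by ring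
    _ ≤ ((2 * π * x) ^ 2 / 2) ^ 2 * 2 := by
        apply mul_le_mul h4 (by linarith) (by linarith) (by positivity)
    _ = _ := by ring

/-- comparison with a telescoping series -/
theorem gs_tele (b K : ℝ) (hb : 0 < b) (hK : 0 ≤ K) (f : ℕ → ℝ) (h0 : f 0 = 0)
    (hn : ∀ j, 0 ≤ f j)
    (hf : ∀ j : ℕ, f (j + 1) ≤ K * b * (1 / ((1 + b * j) * (1 + b * (j + 1))))) :
    Summable f ∧ ∑' j, f j ≤ K := by
  have hpart : ∀ n : ℕ, ∑ j ∈ Finset.range n, f (j + 1) ≤ K * (1 - 1 / (1 + b * n)) := by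
    intro n
    induction n with
    | zero => simp
    | succ n ih =>
      rw [Finset.sum_range_succ]
      have h1 : 1 + b * (n : ℝ) ≠ 0 := by positivity
      have h2 : 1 + b * ((n : ℝ) + 1) ≠ 0 := by positivity
      have e : 1 / (1 + b * (n : ℝ)) - 1 / (1 + b * ((n : ℝ) + 1)) =
        b * (1 / ((1 + b * n) * (1 + b * (n + 1)))) := by
        field_simp
        ring
      have h3 := hf n
      rw [mul_assoc, ← e] at h3
      push_cast
      calc _ ≤ K * (1 - 1 / (1 + b * n)) +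
          K * (1 / (1 + b * (n : ℝ)) - 1 / (1 + b * ((n : ℝ) + 1))) := add_le_add ih h3
        _ = _ := by ring
  have hK' : ∀ n : ℕ, ∑ j ∈ Finset.range n, f j ≤ K := by
    intro n
    rcases n with _ | n
    · simpa using hK
    · rw [Finset.sum_range_succ', h0, add_zero]
      refine (hpart n).trans ?_
      have : 0 ≤ 1 / (1 + b * (n : ℝ)) := by positivity
      nlinarith
  exact ⟨summable_of_sum_range_le hn hK', Real.tsum_le_of_sum_range_le hn hK'⟩

theorem gs_sq_le {x : ℝ} (hx : 0 < x) (hx1 : x ≤ 1) : (1 + x) ^ 2 ≤ 4 := by nlinarith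

theorem gs_sq_le' {x : ℝ} (hx1 : 1 ≤ x) : (1 + x) ^ 2 ≤ 4 * x ^ 2 := by nlinarith

theorem gs_main (b : ℝ) (hb : 0 < b) (m : ℕ) (hm : 4 ≤ m) (D : ℝ) (hD : 8 ≤ D)
    (hc : ∀ x : ℝ, 0 < x → (1 - Real.cos (2 * π * x)) ^ 3 ≤ D * x ^ m) (j : ℕ) :
    (1 - Real.cos (2 * π * (b * (j + 1 : ℕ)))) ^ 3 / ((j + 1 : ℕ) : ℝ) ^ m ≤
      4 * D * b ^ m * (1 / ((1 + b * j) * (1 + b * (j + 1)))) := by
  push_cast
  set x : ℝ := b * ((j : ℝ) + 1) with hx
  have hx0 : 0 < x := by positivity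
  have hj0 : (0 : ℝ) < (j : ℝ) + 1 := by positivity
  have hbm : 0 < b ^ m := by positivity
  set t := (1 - Real.cos (2 * π * x)) ^ 3 with ht
  have ht0 : 0 ≤ t := by
    have := Real.cos_le_one (2 * π * x)
    have h : 0 ≤ 1 - Real.cos (2 * π * x) := by linarith
    positivity
  have e1 : t / ((j : ℝ) + 1) ^ m = b ^ m * (t / x ^ m) := by
    rw [hx, mul_pow]
    field_simp
  have hjx : 1 + b * (j : ℝ) ≤ 1 + x := by rw [hx]; nlinarith
  have hden : (1 + b * (j : ℝ)) * (1 + x) ≤ (1 + x) ^ 2 := by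
    rw [sq]
    exact mul_le_mul_of_nonneg_right hjx (by positivity)
  have hkey : t / x ^ m ≤ 4 * D * (1 / ((1 + b * j) * (1 + x))) := by
    rw [mul_one_div, div_le_div_iff₀ (by positivity) (by positivity)]
    have h1 : t * ((1 + b * j) * (1 + x)) ≤ t * (1 + x) ^ 2 := mul_le_mul_of_nonneg_left hden ht0
    refine h1.trans ?_
    have hxm : 0 < x ^ m := by positivity
    rcases le_total x 1 with hx1 | hx1
    · have h2 := hc x hx0
      have h3 := gs_sq_le hx0 hx1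
      calc t * (1 + x) ^ 2 ≤ (D * x ^ m) * 4 :=
            mul_le_mul h2 h3 (by positivity) (by positivity)
        _ = _ := by ring
    · have h2 : t ≤ 8 := gs_cube_le x
      have h3 := gs_sq_le' hx1
      have h4 : x ^ 2 ≤ x ^ m := pow_le_pow_right₀ hx1 (by omega)
      calc t * (1 + x) ^ 2 ≤ 8 * (4 * x ^ 2) :=
            mul_le_mul h2 h3 (by positivity) (by positivity)
        _ ≤ 8 * (4 * x ^ m) := by linarith
        _ ≤ D * (4 * x ^ m) := mul_le_mul_of_nonneg_right hD (by positivity)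
        _ = _ := by ring
  rw [e1]
  calc b ^ m * (t / x ^ m) ≤ b ^ m * (4 * D * (1 / ((1 + b * j) * (1 + x)))) :=
        mul_le_mul_of_nonneg_left hkey hbm.le
    _ = _ := by ring

theorem gs_pi (n : ℕ) : 1 ≤ π ^ n := one_le_pow₀ (by linarith [Real.pi_gt_three])

theorem st_GS : ST_GS := by
  refine ⟨32 * π ^ 6, by positivity, ?_⟩
  intro b hb _
  have h6 := gs_tele b (32 * π ^ 6 * b ^ 5) hb (by positivity) (wg b) (by simp [wg])
    (fun j => div_nonneg (gs_nonneg b j) (by positivity)) (fun j => by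
      refine (gs_main b hb 6 (by norm_num) (8 * π ^ 6) (by nlinarith [gs_pi 6])
        (fun x _ => gs_cube_le6 x) j).trans (le_of_eq ?_)
      ring)
  have h4 := gs_tele b (32 * π ^ 4 * b ^ 3) hb (by positivity) (wt b) (by simp [wt])
    (fun j => div_nonneg (gs_nonneg b j) (by positivity)) (fun j => by
      refine (gs_main b hb 4 (by norm_num) (8 * π ^ 4) (by nlinarith [gs_pi 4])
        (fun x _ => gs_cube_le4 x) j).trans (le_of_eq ?_)
      ring)
  refine ⟨h6.1, h6.2, ?_⟩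
  unfold WW
  refine h4.2.trans ?_
  have hp : π ^ 4 ≤ π ^ 6 := pow_le_pow_right₀ (by linarith [Real.pi_gt_three]) (by norm_num)
  have hb3 : 0 < b ^ 3 := by positivity
  nlinarith

end Pool.Agent.Helper92.LV
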